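import Pool.Agent.H35.SW.FStmts

/-!
# Project SW, module EMB: the embedding of the ground model, the generic filter
-/

set_option autoImplicit false
set_option synthInstance.maxSize 100000

namespace SW

theorem EMBaux.chk_inj {M : Type} [SetStr M] [ZF M] (F : FPoset M) (h : EqFacts F) (x : M) :
    ∀ y p : M, EqF F p (chk F x) (chk F y) → x = y := by
  refine mem_induction (C := fun x : M => ∀ y p : M, EqF F p (chk F x) (chk F y) → x = y)
    inferInstance ?_ x
  intro x ih y p hp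
  have hpP := h.inP hp
  apply ext
  intro z
  constructor
  · intro hz
    obtain ⟨r, d, s, hr, hrp, hd, hs, hrs, hcd⟩ := h.left hp
      ((mem_chk F).2 ⟨z, hz, rfl⟩) F.one_mem hpP (F.refl p hpP) (F.le_one p hpP)
    obtain ⟨w, hw, hdw⟩ := (mem_chk F).1 hd
    rw [opair_inj] at hdw
    rw [hdw.1] at hcd
    rw [ih z hz w r hcd]
    exact hw
  · intro hz
    obtain ⟨r, c, s, hr, hrp, hc, hs, hrs, hcd⟩ := h.right hp
      ((mem_chk F).2 ⟨z, hz, rfl⟩) F.one_mem hpP (F.refl p hpP) (F.le_one p hpP)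
    obtain ⟨w, hw, hcw⟩ := (mem_chk F).1 hc
    rw [opair_inj] at hcw
    rw [hcw.1] at hcd
    rw [← ih w hw z r hcd]
    exact hw

/-- Module EMB. -/
theorem embf (heq : EQStmt) (_ : GMStmt) (hquo : QUOStmt) : EMBStmt := by
  intro M _ _ F G hG
  have h := heq M F
  have hq := hquo M F G hG
  have hinj : ∀ x y, emb F G x = emb F G y ↔ x = y := by
    intro x y
    constructor
    · intro hxy
      obtain ⟨p, -, hp⟩ := (hq.eq_iff _ _).1 hxy
      exact EMBaux.chk_inj F h x y p hp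
    · rintro rfl
      rfl
  have htr : ∀ z y, E z (emb F G y) → ∃ x, E x y ∧ z = emb F G x := by
    intro z y hz
    obtain ⟨d, s, hd, -, rfl⟩ := (hq.mem_iff' z _).1 hz
    obtain ⟨w, hw, hdw⟩ := (mem_chk F).1 hd
    rw [opair_inj] at hdw
    exact ⟨w, hw, by rw [hdw.1]; rfl⟩
  refine ⟨?_, hinj, htr, ?_⟩
  · intro x y
    constructor
    · intro hxy
      obtain ⟨w, hw, hxw⟩ := htr _ _ hxy
      rw [(hinj x w).1 hxw]
      exact hw
    · intro hxy
      exact (hq.mem_iff' _ _).2 ⟨chk F x, F.one, (mem_chk F).2 ⟨x, hxy, rfl⟩, hG.one, rfl⟩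
  · intro z
    rw [hq.mem_iff']
    constructor
    · rintro ⟨d, s, hd, hs, rfl⟩
      unfold Gnm at hd
      rw [mem_img' inferInstance] at hd
      obtain ⟨p, hp, hdp⟩ := hd
      rw [opair_inj] at hdp
      refine ⟨p, ?_, ?_⟩
      · rw [← hdp.2]
        exact hs
      · rw [hdp.1]
        rfl
    · rintro ⟨p, hp, rfl⟩
      refine ⟨chk F p, p, ?_, hp, rfl⟩
      unfold Gnm
      rw [mem_img' inferInstance]
      exact ⟨p, hG.sub p hp, rfl⟩

end SW
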