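import Pool.Agent.H35.SW.FStmts

/-!
# Project SW, module QUO: equality and membership in the generic extension
-/

set_option autoImplicit false
set_option synthInstance.maxSize 100000

namespace SW

theorem QUOaux.equiv {M : Type} [SetStr M] [ZF M] (F : FPoset M) (G : M → Prop) (hG : Gen F G)
    (h : EqFacts F) : Equivalence (fun a b : M => ∃ p, G p ∧ EqF F p a b) := by
  refine ⟨fun a => ⟨F.one, hG.one, h.refl F.one_mem⟩, ?_, ?_⟩
  · rintro a b ⟨p, hp, hab⟩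
    exact ⟨p, hp, h.symm hab⟩
  · rintro a b c ⟨p, hp, hab⟩ ⟨q, hq, hbc⟩
    obtain ⟨r, hr, hrp, hrq⟩ := hG.dir p q hp hq
    exact ⟨r, hr, h.trans (h.mono hab (hG.sub r hr) hrp) (h.mono hbc (hG.sub r hr) hrq)⟩

/-- Module QUO. -/
theorem quo (heq : EQStmt) (hgm : GMStmt) : QUOStmt := by
  intro M _ _ F G hG
  have h := heq M F
  have hm := hgm M F G hG
  have heqv := QUOaux.equiv F G hG h
  have h1 : ∀ a b, mk F G a = mk F G b ↔ ∃ p, G p ∧ EqF F p a b := by
    intro a b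
    exact Equivalence.quot_mk_eq_iff heqv a b
  have h2 : ∀ a b, E (mk F G a) (mk F G b) ↔ ∃ p, G p ∧ MemF F p a b := by
    intro a b
    constructor
    · rintro ⟨a', b', ha, hb, p, hp, hab⟩
      obtain ⟨q, hq, haq⟩ := (h1 a' a).1 ha
      obtain ⟨q', hq', hbq⟩ := (h1 b' b).1 hb
      obtain ⟨r, hr, hrp, hrq⟩ := hG.dir p q hp hq
      obtain ⟨t, ht, htr, htq⟩ := hG.dir r q' hr hq'
      have htP := hG.sub t ht
      have hrP := hG.sub r hr
      have htp : F.le t p := F.trans t r p htP hrP (hG.sub p hp) htr hrp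
      have htq2 : F.le t q := F.trans t r q htP hrP (hG.sub q hq) htr hrq
      exact ⟨t, ht, h.mcongr (h.mono hbq htP htq)
        (h.mcongl (h.mono haq htP htq2) (h.mmono hab htP htp))⟩
    · rintro ⟨p, hp, hab⟩
      exact ⟨a, b, rfl, rfl, p, hp, hab⟩
  refine ⟨h1, h2, ?_⟩
  intro x b
  constructor
  · intro hx
    obtain ⟨a, rfl⟩ : ∃ a, mk F G a = x := Quot.exists_rep x
    obtain ⟨p, hp, hab⟩ := (h2 a b).1 hx
    obtain ⟨r, hr, -, d, s, hd, hs, hrs, hrd⟩ := hm.meetB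
      (fun r : M => ∃ d s : M, E (opair d s) b ∧ E s F.P ∧ F.le r s ∧ EqF F r a d)
      inferInstance p hp (by
        intro q hq hqp
        obtain ⟨r, d, s, hr, hrq, hd, hs, hrs, hrd⟩ := hab.2 q hq hqp
        exact ⟨r, hr, hrq, d, s, hd, hs, hrs, hrd⟩)
    exact ⟨d, s, hd, hG.up r s hr hs hrs, (h1 a d).2 ⟨r, hr, hrd⟩⟩
  · rintro ⟨d, s, hd, hs, rfl⟩
    have hsP := hG.sub s hs
    exact (h2 d b).2 ⟨s, hs, h.mintro hd hsP hsP (F.refl s hsP)⟩

end SW
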